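import Pool.Agent.EWH.Restr

/-!
# The middle regime (MP_2a8d8e)

For `t ≥ 2`, `d ≥ 2`, the problems `p-WD_φ`, `φ` with a `d`-narrow matrix (in particular `φ` in
`Π_{t/d}`), reduce to one problem in `p-WD-Π_{t/1}` with the new parameter
`O(min(k, log |x|) ^ d + 1)`; so they are in `EW[t]` on the instances with `k ^ d ≤ C log |x|` or
`(log |x|) ^ d ≤ C k`. The equality `EW[t] = [p-WD-Π_{t/d}]^ept` holds if and only if a classical
problem with a logarithmic number of elements is reducible to another one in polynomial time.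
-/

set_option autoImplicit false

namespace Pool.Agent.Results.MP_2a8d8e_lc.MiddleRegime

open Pool.Agent.EWH

theorem result (t : ℕ) (ht : 2 ≤ t) :
    (canon (t := t) (Nat.zero_lt_of_lt ht) 1).mat.occ = 1 ∧
    (∀ d : ℕ, 2 ≤ d → ∀ (s : ℕ) (φ : PiForm s t), Narrow φ d →
      RegReduces d (WD φ) (WD (canon (t := t) (Nat.zero_lt_of_lt ht) 1)) ∧
      ∀ C : ℕ, (WD φ).restr (Outer (WD φ) d C) ∈ EW t) ∧
    (∀ d : ℕ, 1 ≤ d → (EptClosure (pWD t d) = EW t ↔
      Karp (LogWD (canon (t := t) (Nat.zero_lt_of_lt ht) d))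
        (LogWD (canon (t := t) (Nat.zero_lt_of_lt ht) 1)))) ∧
    (EptClosure (pWDall t) = EW t ↔ ∀ d : ℕ, 1 ≤ d →
      Karp (LogWD (canon (t := t) (Nat.zero_lt_of_lt ht) d))
        (LogWD (canon (t := t) (Nat.zero_lt_of_lt ht) 1))) := by
  refine ⟨canon_occ _ 1, fun d hd s φ hφ => ⟨regime' ht hd φ hφ, fun C =>
    ⟨_, canon_mem _ 1, (regime' ht hd φ hφ).outer C⟩⟩, fun d hd => closure_iff_karp ht d hd,
    all_iff_karp ht⟩

end Pool.Agent.Results.MP_2a8d8e_lc.MiddleRegime
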