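import Pool.Agent.EWH.NF

/-!
# Formulas with a narrow matrix, complete problems (MP_2a8d8e)

For all `t ≥ 2` and `d ≥ 1`: the problems `p-WD_φ` for the `Π_t`-formulas whose matrix is a
disjunction (last block existential) or a conjunction (last block universal) of formulas each of
which contains at most `d` inner occurrences of `X` generate the same class as `Π_{t/d}`, and this
class has a complete problem `p-WD_φ`, with one explicit formula `φ` in which `X` is unary. The number
of occurrences of `X` in the formulas is not bounded. For `d = 1` the class is `EW[t]`.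
-/

set_option autoImplicit false

namespace Pool.Agent.Results.MP_2a8d8e_lc.NarrowMatrix

open Pool.Agent.EWH

theorem result (t d : ℕ) (ht : 2 ≤ t) (hd : 1 ≤ d) :
    EptClosure (pWDnarrow t d) = EptClosure (pWD t d) ∧
      EptClosure (pWD t d) = EptClosure {WD (canon (t := t) (Nat.zero_lt_of_lt ht) d)} := by
  have hc : WD (canon (t := t) (Nat.zero_lt_of_lt ht) d) ∈ pWD t d := canon_mem _ d
  have h1 : EptClosure (pWDnarrow t d) ⊆
      EptClosure {WD (canon (t := t) (Nat.zero_lt_of_lt ht) d)} := by
    refine closure_mono ?_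
    rintro P ⟨s, hs, φ, hφ, rfl⟩
    exact ⟨_, rfl, wd_reduces_canon ht hd φ hφ⟩
  have h2 : EptClosure {WD (canon (t := t) (Nat.zero_lt_of_lt ht) d)} ⊆
      EptClosure (pWD t d) := by
    refine closure_mono ?_
    rintro P rfl
    exact subset_closure _ hc
  have h3 : EptClosure (pWD t d) ⊆ EptClosure (pWDnarrow t d) := by
    refine closure_mono ?_
    rintro P ⟨s, hs, φ, hφ, rfl⟩
    exact subset_closure _ ⟨s, hs, φ, narrow_of_occ φ hφ, rfl⟩
  exact ⟨Set.Subset.antisymm (h1.trans h2) h3,
    Set.Subset.antisymm (h3.trans h1) h2⟩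

end Pool.Agent.Results.MP_2a8d8e_lc.NarrowMatrix
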