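import Pool.Agent.EWH.Dummy

/-!
# All `Π_t`-formulas in the next level of the EW-hierarchy (MP_2a8d8e)

`[p-WD-Π_t]^ept ⊆ EW[t+1]` for all `t ≥ 1`; there is no bound for the number of occurrences of `X`.
-/

set_option autoImplicit false

namespace Pool.Agent.Results.MP_2a8d8e_lc.NextLevel

open Pool.Agent.EWH

theorem result (t : ℕ) (ht : 1 ≤ t) : EptClosure (pWDall t) ⊆ EW (t + 1) := by
  refine closure_mono ?_
  rintro P ⟨s, hs, φ, rfl⟩
  exact ⟨_, canon_mem _ 1, (wd_dummy φ).trans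
    (wd_reduces_canon (t := t + 1) (by omega) one_pos φ.dummy φ.dummy_narrow)⟩

end Pool.Agent.Results.MP_2a8d8e_lc.NextLevel
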