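import Pool.Agent.EWH.SignG

/-!
# The sign fragment (MP_2a8d8e)

For all `t ≥ 2`: if `t` is even, then `EW[t]` contains the problems `p-WD_φ` for all `Π_t`-formulas
`φ` whose matrix is a disjunction of formulas each of which has at most one inner occurrence of `X` or
only negative inner occurrences of `X`; if `t` is odd, the same holds for conjunctions and positive
inner occurrences. There is no bound for the number of the occurrences of `X`.
-/

set_option autoImplicit false

namespace Pool.Agent.Results.MP_2a8d8e_lc.SignFragment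

open Pool.Agent.EWH

theorem result (t : ℕ) (ht : 2 ≤ t) : EptClosure (pWDsign t) = EW t := by
  refine Set.Subset.antisymm (closure_mono ?_) (closure_mono ?_)
  · rintro P ⟨s, hs, φ, hφ, rfl⟩
    exact ⟨_, canon_mem _ 1, wd_reduces_sign ht φ hφ⟩
  · rintro P ⟨s, hs, φ, hφ, rfl⟩
    obtain ⟨L, hL, hL'⟩ := narrow_of_occ φ hφ
    exact subset_closure _ ⟨s, hs, φ, ⟨L, hL, fun ψ hψ => Or.inl (hL' ψ hψ)⟩, rfl⟩

end Pool.Agent.Results.MP_2a8d8e_lc.SignFragment
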